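import Pool.Agent.N613.RP.Np

/-!
# A reflection principle for linear inequalities between the `γ`-numbers of flag homology spheres

`Sph F d G` says that the complex of the cliques of the finite graph `G` (these are all finite flag
complexes) is a homology `(d - 1)`-sphere over the field `F`: the link of every simplex `T`, the
empty one included, has the reduced homology over `F` of the sphere of dimension `d - 1 - |T|`. The
face polynomial `fp G A` is `∑ x^|T|` over the cliques `T ⊆ A`, and `lnk G T` is the vertex set of
the link of `T`. The `γ`-vector `γ` of a homology `(d - 1)`-sphere is given by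
`fp = ∑ γ_i (x + x^2)^i (1 + 2x)^(d-2i)` (`IsGam`); `gammaL d G T` is the `γ`-vector of the link of
`T`, for `T = ∅` the one of `G`.

Let `I` be a set of vertices each of which is adjacent to all others in `I` with at most one
exception (`Tame G I`). For a linear form `α` in the `γ`-numbers put
`refl α I = ∑ (-1/2)^|T| α(γ(link of T))`, the sum over the simplices `T ⊆ I`. For example
`refl α {v} = α(G) - α(lk v) / 2`, and `refl α {v, w} = α(G) - α(lk v) / 2 - α(lk w) / 2` if `v`, `w`
are not adjacent. (The right-angled Coxeter groups of the sets `I` are the virtually abelian ones;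
the sum of the `(-1/2)^|T|` is the Euler characteristic of this group.)

**Result.** If `α ≥ 0` for all flag homology `(d - 1)`-spheres, then `refl α I ≥ 0` for all of them
and all `I` as above. If only `α ≥ - o(N) - O(1)`, `N` the number of vertices, then `refl α I ≥ 0` for
all `I` which contain two vertices that are not adjacent. Both hold also in every class of spheres
which is closed under doubling (for instance the `k`-colourable ones). So Gal's inequality
`γ_i ≥ 0` for all flag homology `(d - 1)`-spheres is equivalent to the apparently stronger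
inequalities `∑ (-1/2)^|T| γ_i(lk T) ≥ 0`. Without any hypothesis one gets, from the bound
`4 γ_2 + 3 (d - 2) γ_1 ≥ 0` of the library, the inequality `refl ≥ 0` for this form, and
`4 γ_2 + 3 (d - 2) γ_1 ≥ (3/2) (γ_1(lk v) + γ_1(lk w))` if `v`, `w` are not adjacent and `d ≥ 5`.

Proof. Let `D` be the double of `G` along the complement of the open star of `v`. If `T` is a
simplex in the link of `v` then `γ(lk_D T) = 2 γ(lk T) - γ(lk (T ∪ v))`. So a double at a vertex
`v ∈ I` which is adjacent to the rest of `I` gives `refl α I` for `G` from `refl α (I \ v)` for `D`,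
and if `v, w ∈ I` are not adjacent then one doubles at `v`, then at one of the two copies of `w`, then at
one of the two copies of the other copy, and so on.
-/

set_option autoImplicit false

namespace Pool.Agent.Results.MP_19e880_co.ReflectionPrinciple

open Pool.Agent.R580.CD

/-- The `γ`-vector of the link of the simplex `T` of the flag homology `(d - 1)`-sphere given by `G`:
the integers `γ_i` with `∑ x^|R| = ∑ γ_i (x + x^2)^i (1 + 2x)^(d-|T|-2i)` and `γ_i = 0` for
`2 i > d - |T|`, where `R` runs over the simplices of the link (zero if there are none; see the first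
part of the theorem). -/
noncomputable def gammaL {V : Type} [Fintype V] [LinearOrder V] (d : ℕ) (G : SimpleGraph V)
    (T : Finset V) : ℕ → ℤ := Pool.Agent.N613.RP.gv (d - T.card) (fp G (lnk G T))

/-- the linear form `∑ a_i γ_i`, `i < m`, of the link of `T` -/
noncomputable def form {V : Type} [Fintype V] [LinearOrder V] (a : ℕ → ℚ) (m d : ℕ)
    (G : SimpleGraph V) (T : Finset V) : ℚ := ∑ i ∈ Finset.range m, a i * (gammaL d G T i : ℚ)

/-- every vertex of `I` is adjacent to all other vertices of `I` with at most one exception -/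
def Tame {V : Type} (G : SimpleGraph V) (I : Finset V) : Prop :=
  ∀ u ∈ I, ∀ v ∈ I, ∀ w ∈ I, v ≠ u → w ≠ u → ¬ G.Adj u v → ¬ G.Adj u w → v = w

open Classical in
/-- the sum of `(-1/2)^|T| g T` over the simplices `T ⊆ I` -/
noncomputable def refl {V : Type} (G : SimpleGraph V) (I : Finset V) (g : Finset V → ℚ) : ℚ :=
  ∑ T ∈ I.powerset, if G.IsClique (T : Set V) then (-1 / 2) ^ T.card * g T else 0

/-- The class `P` is closed under doubling of flag homology `(d - 1)`-spheres: `dbl H v` on the set
`hA v ∪ hB H v` is the graph of two copies of `H - v`, glued along the link of `v`. -/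
def ClosedUnderDoubling (F : Type) [Field F] (d : ℕ) (P : ∀ W : Type, SimpleGraph W → Prop) :
    Prop :=
  ∀ (W : Type) [Fintype W] [LinearOrder W] (H : SimpleGraph W) (v : W), Sph F d H → P W H →
    P ↥(hA v ∪ hB H v) ((dbl H v).induce (hA v ∪ hB H v))

/-- **The reflection principle for linear inequalities between `γ`-numbers.** -/
theorem result (F : Type) [Field F] (d : ℕ) :
    -- the gamma-vectors of the links
    (∀ (V : Type) [Fintype V] [LinearOrder V] (G : SimpleGraph V), Sph F d G →
      gammaL d G ∅ = gam d G ∧ ∀ T : Finset V, G.IsClique (T : Set V) →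
        IsGam (d - T.card) (fp G (lnk G T)) (gammaL d G T)) ∧
    -- linear inequalities
    (∀ P : ∀ W : Type, SimpleGraph W → Prop, ClosedUnderDoubling F d P →
      ∀ (a : ℕ → ℚ) (m : ℕ),
      (∀ (W : Type) [Fintype W] [LinearOrder W] (H : SimpleGraph W), Sph F d H → P W H →
        0 ≤ form a m d H ∅) →
      ∀ (V : Type) [Fintype V] [LinearOrder V] (G : SimpleGraph V), Sph F d G → P V G →
        ∀ I : Finset V, Tame G I → 0 ≤ refl G I (form a m d G)) ∧
    -- asymptotic linear inequalities
    (∀ P : ∀ W : Type, SimpleGraph W → Prop, ClosedUnderDoubling F d P →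
      ∀ (a : ℕ → ℚ) (m : ℕ),
      (∀ ε : ℚ, 0 < ε → ∃ C : ℚ, ∀ (W : Type) [Fintype W] [LinearOrder W] (H : SimpleGraph W),
        Sph F d H → P W H → -(ε * Fintype.card W + C) ≤ form a m d H ∅) →
      ∀ (V : Type) [Fintype V] [LinearOrder V] (G : SimpleGraph V), Sph F d G → P V G →
        ∀ I : Finset V, Tame G I → (∃ v ∈ I, ∃ w ∈ I, w ≠ v ∧ ¬ G.Adj v w) →
          0 ≤ refl G I (form a m d G)) ∧
    -- Gal's conjecture
    (∀ P : ∀ W : Type, SimpleGraph W → Prop, ClosedUnderDoubling F d P → ∀ i : ℕ,
      ((∀ (V : Type) [Fintype V] [LinearOrder V] (G : SimpleGraph V), Sph F d G → P V G →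
        0 ≤ gam d G i) ↔
      ∀ (V : Type) [Fintype V] [LinearOrder V] (G : SimpleGraph V), Sph F d G → P V G →
        ∀ I : Finset V, Tame G I → 0 ≤ refl G I (fun T => (gammaL d G T i : ℚ)))) ∧
    -- all spheres, and the colourable ones
    ClosedUnderDoubling F d (fun _ _ => True) ∧
    (∀ k : ℕ, ClosedUnderDoubling F d (fun _ H => H.Colorable k)) ∧
    -- the unconditional inequality for the second gamma number
    (4 ≤ d → ∀ (V : Type) [Fintype V] [LinearOrder V] (G : SimpleGraph V), Sph F d G →
      (∀ I : Finset V, Tame G I →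
        0 ≤ refl G I (fun T => 4 * (gammaL d G T 2 : ℚ) + 3 * ((d : ℚ) - 2) * gammaL d G T 1)) ∧
      (5 ≤ d → ∀ v w : V, w ≠ v → ¬ G.Adj v w →
        3 * (gammaL d G {v} 1 + gammaL d G {w} 1) ≤
          2 * (4 * gam d G 2 + 3 * ((d : ℤ) - 2) * gam d G 1))) := by
  have hT : ClosedUnderDoubling F d (fun _ _ => True) := fun _ _ _ _ _ _ _ => trivial
  have hform : ∀ (V : Type) [Fintype V] [LinearOrder V] (G : SimpleGraph V) (a : ℕ → ℚ) (m : ℕ),
      form a m d G ∅ = Pool.Agent.N613.RP.val a m d (fp G Set.univ) := by
    intro V _ _ G a m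
    unfold form gammaL Pool.Agent.N613.RP.val
    rw [Pool.Agent.N613.RP.lnk_empty, Finset.card_empty, Nat.sub_zero]
  have h1 : ∀ P : ∀ W : Type, SimpleGraph W → Prop, ClosedUnderDoubling F d P →
      ∀ (a : ℕ → ℚ) (m : ℕ),
      (∀ (W : Type) [Fintype W] [LinearOrder W] (H : SimpleGraph W), Sph F d H → P W H →
        0 ≤ form a m d H ∅) →
      ∀ (V : Type) [Fintype V] [LinearOrder V] (G : SimpleGraph V), Sph F d G → P V G →
        ∀ I : Finset V, Tame G I → 0 ≤ refl G I (form a m d G) := by
    intro P hP a m h V _ _ G hS hG I hI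
    exact Pool.Agent.N613.RP.main hP (fun W _ _ H hH hPH => by
      rw [← hform]
      exact h W H hH hPH) hS hG I hI
  have hgal : ∀ (V : Type) [Fintype V] [LinearOrder V] (G : SimpleGraph V) (i : ℕ),
      form (fun j => if j = i then 1 else 0) (i + 1) d G = fun T => (gammaL d G T i : ℚ) := by
    intro V _ _ G i
    funext T
    unfold form
    rw [Finset.sum_range_succ]
    beta_reduce
    rw [if_pos rfl, one_mul, Finset.sum_eq_zero, zero_add]
    intro j hj
    rw [if_neg (by rw [Finset.mem_range] at hj; omega), zero_mul]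
  have hgam : ∀ (V : Type) [Fintype V] [LinearOrder V] (G : SimpleGraph V), gammaL d G ∅ = gam d G := by
    intro V _ _ G
    unfold gammaL
    rw [Pool.Agent.N613.RP.lnk_empty, Finset.card_empty, Nat.sub_zero]
    rfl
  refine ⟨?_, h1, ?_, ?_, hT, ?_, ?_⟩
  · intro V _ _ G hS
    exact ⟨hgam V G, fun T hTc => Pool.Agent.N613.RP.link_gam hS hTc⟩
  · rintro P hP a m h V _ _ G hS hG I hI ⟨v, hv, w, hw, hwv, hvw⟩
    exact Pool.Agent.N613.RP.main_asy hP (fun ε hε => by
      obtain ⟨C, hC⟩ := h ε hε
      exact ⟨C, fun W _ _ H hH hPH => by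
        rw [← hform]
        exact hC W H hH hPH⟩) hS hG hI hv hw hwv hvw
  · intro P hP i
    constructor
    · intro h V _ _ G hS hG I hI
      have h2 := h1 P hP (fun j => if j = i then 1 else 0) (i + 1) (fun W _ _ H hH hPH => by
        rw [hgal]
        beta_reduce
        rw [hgam]
        exact_mod_cast h W H hH hPH) V G hS hG I hI
      rwa [hgal] at h2
    · intro h V _ _ G hS hG
      have h2 := h V G hS hG ∅ (fun u hu => by simp at hu)
      unfold refl at h2
      simp only [Finset.powerset_empty, Finset.sum_singleton, Finset.coe_empty,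
        SimpleGraph.isClique_empty, if_true, Finset.card_empty, pow_zero, one_mul, hgam] at h2
      exact_mod_cast h2
  · rintro k W _ _ H v _ ⟨c⟩
    refine ⟨c.comp ⟨fun p => (ofLex p.1).1, fun {p q} h => ?_⟩⟩
    have h2 : (dbl H v).Adj p.1 q.1 := h
    exact h2.1
  · intro hd V _ _ G hS
    have hb := fun (W : Type) (_ : Fintype W) (_ : LinearOrder W) (H : SimpleGraph W)
      (hH : Sph F d H) => Pool.Agent.N613.RP.gamma_two_bound hH hd
    have hf : ∀ (W : Type) [Fintype W] [LinearOrder W] (H : SimpleGraph W),
        form (fun j => if j = 2 then 4 else if j = 1 then 3 * ((d : ℚ) - 2) else 0) 3 d H =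
          fun T => 4 * (gammaL d H T 2 : ℚ) + 3 * ((d : ℚ) - 2) * gammaL d H T 1 := by
      intro W _ _ H
      funext T
      unfold form
      rw [Finset.sum_range_succ, Finset.sum_range_succ, Finset.sum_range_one]
      norm_num
      ring
    have h2 := h1 (fun _ _ => True) hT
      (fun j => if j = 2 then 4 else if j = 1 then 3 * ((d : ℚ) - 2) else 0) 3
      (fun W _ _ H hH _ => by
        rw [hf]
        beta_reduce
        rw [hgam]
        have h3 := hb W _ _ H hH
        have h4 : gam d H = Pool.Agent.N613.RP.gv d (fp H Set.univ) := rfl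
        rw [h4]
        exact_mod_cast h3) V G hS trivial
    rw [hf] at h2
    refine ⟨h2, ?_⟩
    intro hd5 v w hwv hvw
    classical
    have h3 := h2 {v, w} (by
      intro a ha b hb c hc hba hca _ _
      simp only [Finset.mem_insert, Finset.mem_singleton] at ha hb hc
      rcases ha with rfl | rfl <;> rcases hb with rfl | rfl <;> rcases hc with rfl | rfl <;>
        first | rfl | exact absurd rfl hba | exact absurd rfl hca)
    have h4 : ∀ g : Finset V → ℚ, refl G {v, w} g = g ∅ - 1 / 2 * g {v} - 1 / 2 * g {w} := by
      intro g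
      have h5 := Pool.Agent.N613.RP.EE_pair (K := G) (I := ∅) (v := v) (w := w) (by simp) (by simp)
        hwv.symm hvw (by simp) (by simp) g
      have h6 : ∀ g' : Finset V → ℚ, Pool.Agent.N613.RP.EE G ∅ g' = g' ∅ := by
        intro g'
        unfold Pool.Agent.N613.RP.EE
        simp
      rw [h6, h6, h6] at h5
      exact h5
    rw [h4, hgam] at h3
    have h5 : ∀ u : V, (3 * (gammaL d G {u} 1 : ℚ)) ≤
        4 * (gammaL d G {u} 2 : ℚ) + 3 * ((d : ℚ) - 2) * gammaL d G {u} 1 := by
      intro u
      have hu : G.IsClique (({u} : Finset V) : Set V) := by simp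
      have h6 := (Pool.Agent.N613.RP.link_sphOn hS hu).induce
      have h7 := Pool.Agent.N613.RP.gamma_two_bound h6 (by
        rw [Finset.card_singleton]
        omega)
      rw [fp_univ_induce] at h7
      have h8 : ((d - ({u} : Finset V).card : ℕ) : ℤ) = d - 1 := by
        rw [Finset.card_singleton]
        omega
      rw [h8] at h7
      have h9 : (0 : ℤ) ≤ 4 * gammaL d G {u} 2 + 3 * ((d : ℤ) - 1 - 2) * gammaL d G {u} 1 := h7
      have h10 : (0 : ℚ) ≤ 4 * (gammaL d G {u} 2 : ℚ) + 3 * ((d : ℚ) - 1 - 2) * gammaL d G {u} 1 := by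
        exact_mod_cast h9
      linarith
    have h6 := h5 v
    have h7 := h5 w
    have h8 : (3 * ((gammaL d G {v} 1 : ℚ) + gammaL d G {w} 1)) ≤
        2 * (4 * (gam d G 2 : ℚ) + 3 * ((d : ℚ) - 2) * gam d G 1) := by
      linarith
    exact_mod_cast h8

end Pool.Agent.Results.MP_19e880_co.ReflectionPrinciple
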